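import Pool.Agent.Helper88.QR.IfaceB

/-!
# Block C of QR: labelled forests, closed walks, weights
-/

namespace QRC

open scoped ENNReal
open QR

noncomputable section

/-- plane forests hanging below a vertex (see `QR.crn`) -/
abbrev Fo : Type := BinaryTree (Fin 3)

/-- weights: `w l` per vertex of label `l`, `t l` per corner at a vertex of label `l`. -/
structure Wts where
  w : ℤ → ℝ≥0∞
  t : ℤ → ℝ≥0∞

/-- The weight of the forest below a vertex of label `l` (the vertex itself not included, its corners
included); every edge has weight `1/12`. -/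
def wt (W : Wts) : ℤ → Fo → ℝ≥0∞
  | l, .nil => W.t l
  | l, .node e L Rt => W.t l * ((12 : ℝ≥0∞)⁻¹ * (W.w (l + stp e) * (wt W (l + stp e) L * wt W l Rt)))

/-- generating function of the forests below a vertex of label `l` -/
def Gf (W : Wts) (l : ℤ) : ℝ≥0∞ := ∑' f : Fo, wt W l f

/-- generating function of the trees whose root has label `l` -/
def Rf (W : Wts) (l : ℤ) : ℝ≥0∞ := W.w l * Gf W l

/-- path sums: walks with `n` steps from `a` to `b` which stay `≥ h`, every down step from `l` to `l - 1`
has weight `R l` -/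
def T (R : ℕ → ℝ≥0∞) (h : ℕ) : ℕ → ℕ → ℕ → ℝ≥0∞
  | 0, a, b => if a = b then 1 else 0
  | n + 1, a, b => T R h n (a + 1) b + if h < a then R a * T R h n (a - 1) b else 0

/-- closed walks with steps `1, -1`, length `2 p` and minimum exactly `h` -/
structure IsWalk (p h : ℕ) (w : ℕ → ℕ) : Prop where
  cw : CWalk p w
  low : ∀ i, i ≤ 2 * p → h ≤ w i
  att : ∃ i, i < 2 * p ∧ w i = h
  out : ∀ i, 2 * p < i → w i = 0

/-- the product of the weights of the down steps -/
def wprod (R : ℕ → ℝ≥0∞) (n : ℕ) (w : ℕ → ℕ) : ℝ≥0∞ :=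
  ∏ i ∈ Finset.range n, if w (i + 1) + 1 = w i then R (w i) else 1

/-- the closed form of the Boltzmann partition function of a boundary of length `2 p` -/
def Wp (p : ℕ) : ℝ := 2 ^ (p + 1) * ((2 * p).factorial : ℝ) / ((p.factorial : ℝ) * ((p + 2).factorial : ℝ))

end

end QRC
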