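import Pool.Agent.Helper71.QRC.Ex

namespace QRC

open scoped ENNReal
open PowerSeries

noncomputable section

/-- `S = 1 + Y`, `S = 1 + 2 X S^2` -/
def Sg : ℝ⟦X⟧ := PowerSeries.mk fun n => 2 ^ n * (catalan n : ℝ)

def Yg : ℝ⟦X⟧ := Sg - 1

theorem Sg_eq : Sg = 1 + 2 * X * Sg ^ 2 := by
  ext n
  rcases n with _ | n
  · simp [Sg, mul_assoc]
  · have h2 : (2 : ℝ⟦X⟧) = C (2 : ℝ) := (map_ofNat C 2).symm
    rw [h2, mul_comm (C (2:ℝ)) X, mul_assoc, map_add, coeff_succ_X_mul, coeff_C_mul, sq, coeff_mul]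
    simp only [Sg, coeff_mk, coeff_one, Nat.succ_ne_zero, if_false, zero_add]
    rw [catalan_succ', Nat.cast_sum, pow_succ, Finset.mul_sum, Finset.mul_sum]
    refine Finset.sum_congr rfl fun x hx => ?_
    have hx' : x.1 + x.2 = n := by simpa using hx
    rw [← hx', pow_add]
    push_cast
    ring

theorem Yg_eq : 2 * X * Sg ^ 2 = Yg := by
  have := Sg_eq
  unfold Yg
  linear_combination (-1 : ℝ⟦X⟧) * this

theorem Sg_Y : Sg = 1 + Yg := by unfold Yg; ring

/-- the denominator -/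
def Dg (c : ℝ) : ℝ⟦X⟧ := C (c + 2) - C c * Yg

theorem constY : constantCoeff Yg = 0 := by
  simp [Yg, Sg]

theorem Dg_inv (c : ℝ) (hc : 0 ≤ c) : Dg c * (Dg c)⁻¹ = 1 := by
  apply PowerSeries.mul_inv_cancel
  have h1 : constantCoeff (Dg c) = c + 2 - c * constantCoeff Yg := by
    unfold Dg
    rw [map_sub, map_mul, constantCoeff_C, constantCoeff_C]
  rw [h1, constY]
  have : 0 < c + 2 := by linarith
  simp only [mul_zero, sub_zero]
  exact this.ne'

/-- the numerators -/
def Ng (c : ℝ) (j : ℕ) : ℝ⟦X⟧ := C (c + j + 3) - C (c + j + 1) * Yg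

def Ug (c : ℝ) (j : ℕ) : ℝ⟦X⟧ := Sg ^ (j + 1) * Ng c j * (Dg c)⁻¹

theorem Ug_rec (c : ℝ) (j : ℕ) :
    C (c + j + 3) * Ug c (j + 1) = C (2 * (c + j + 2)) * (X * Ug c (j + 2)) + C (c + j + 4) * Ug c j := by
  have h1 := Yg_eq
  have h2 := Sg_Y
  unfold Ug Ng
  push_cast
  simp only [map_add, map_mul]
  generalize C c = a
  have e2 : (C (2:ℝ) : ℝ⟦X⟧) = 2 := map_ofNat C 2
  have e3 : (C (3:ℝ) : ℝ⟦X⟧) = 3 := map_ofNat C 3
  have e4 : (C (4:ℝ) : ℝ⟦X⟧) = 4 := map_ofNat C 4
  have e1 : (C (1:ℝ) : ℝ⟦X⟧) = 1 := by simp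
  have ej : (C (j:ℝ) : ℝ⟦X⟧) = (j : ℝ⟦X⟧) := by simp
  rw [e1, e2, e3, e4, ej]
  generalize (j : ℝ⟦X⟧) = b
  generalize (Dg c)⁻¹ = I
  generalize (X : ℝ⟦X⟧) = x at *
  generalize Yg = y at *
  generalize hS : Sg = s at *
  have key : (a + b + 3) * (s * ((a + (b + 1) + 3) - (a + (b + 1) + 1) * y)) =
      2 * (a + b + 2) * (x * (s ^ 2 * ((a + (b + 2) + 3) - (a + (b + 2) + 1) * y))) +
      (a + b + 4) * ((a + b + 3) - (a + b + 1) * y) := by
    rw [h2] at h1 ⊢
    linear_combination (- (a + b + 2) * ((a + (b + 2) + 3) - (a + (b + 2) + 1) * y)) * h1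
  linear_combination (s ^ (j + 1) * I) * key

theorem Ug_zero (c : ℝ) (hc : 0 ≤ c) :
    C (c + 2) * Ug c 0 = C (c + 3) + C (2 * (c + 1)) * (X * Ug c 1) := by
  have h1 := Yg_eq
  have h2 := Sg_Y
  have h3 := Dg_inv c hc
  unfold Ug Ng
  unfold Dg at *
  push_cast at *
  simp only [map_add, map_mul] at *
  generalize C c = a at *
  have e2 : (C (2:ℝ) : ℝ⟦X⟧) = 2 := map_ofNat C 2
  have e3 : (C (3:ℝ) : ℝ⟦X⟧) = 3 := map_ofNat C 3
  have e0 : (C (0:ℝ) : ℝ⟦X⟧) = 0 := by simp
  have e1 : (C (1:ℝ) : ℝ⟦X⟧) = 1 := by simp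
  rw [e2] at h3
  rw [e1, e2, e3, e0]
  generalize ((a + 2) - a * Yg)⁻¹ = I at *
  generalize (X : ℝ⟦X⟧) = x at *
  generalize Yg = y at *
  generalize hS : Sg = s at *
  rw [h2] at h1 ⊢
  have key : (a + 2) * ((1 + y) * ((a + 0 + 3) - (a + 0 + 1) * y)) =
      (a + 3) * ((a + 2) - a * y) + 2 * (a + 1) * (x * ((1 + y) ^ 2 * ((a + 1 + 3) - (a + 1 + 1) * y))) := by
    linear_combination (-(a + 1) * ((a + 1 + 3) - (a + 1 + 1) * y)) * h1
  linear_combination I * key + (a + 3) * h3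

/-- the coefficients -/
def vg (c : ℝ) (j m : ℕ) : ℝ := 2 ^ j * ((c + 1) * (c + 2) / ((c + 3) * (c + j + 1))) * coeff m (Ug c j)

theorem vg_00 (c : ℝ) (hc : 0 ≤ c) : vg c 0 0 = 1 := by
  have h := congrArg (coeff 0) (Ug_zero c hc)
  simp only [coeff_C_mul, LinearMap.map_add, coeff_zero_X_mul, coeff_zero_C, mul_zero, add_zero] at h
  unfold vg
  have h1 : c + 2 ≠ 0 := by linarith
  have h2 : c + 3 ≠ 0 := by linarith
  have h3 : c + 1 ≠ 0 := by linarith
  field_simp
  push_cast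
  linear_combination (c + 1) * h

theorem vg_0s (c : ℝ) (hc : 0 ≤ c) (m : ℕ) : vg c 0 (m + 1) = vg c 1 m := by
  have h := congrArg (coeff (m + 1)) (Ug_zero c hc)
  simp only [coeff_C_mul, LinearMap.map_add, coeff_succ_X_mul, coeff_C, Nat.succ_ne_zero, if_false,
    zero_add] at h
  unfold vg
  generalize coeff (m + 1) (Ug c 0) = a at *
  generalize coeff m (Ug c 1) = b at *
  have h1 : c + 2 ≠ 0 := by linarith
  have h2 : c + 3 ≠ 0 := by linarith
  have h3 : c + 1 ≠ 0 := by linarith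
  have ha : a = 2 * (c + 1) / (c + 2) * b := by
    rw [div_mul_eq_mul_div, eq_div_iff h1]
    linarith
  rw [ha]
  push_cast
  have h4 : c + 1 + 1 ≠ 0 := by linarith
  have h5 : c + 0 + 1 ≠ 0 := by linarith
  field_simp
  ring

theorem vg_s0 (c : ℝ) (hc : 0 ≤ c) (j : ℕ) : vg c (j + 1) 0 = E (c + j + 1) * vg c j 0 := by
  have h := congrArg (coeff 0) (Ug_rec c j)
  simp only [coeff_C_mul, LinearMap.map_add, coeff_zero_X_mul, mul_zero, zero_add] at h
  unfold vg E
  have hj : (0 : ℝ) ≤ j := Nat.cast_nonneg j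
  generalize coeff 0 (Ug c (j + 1)) = a at *
  generalize coeff 0 (Ug c j) = b at *
  have h1 : c + 2 ≠ 0 := by linarith
  have h2 : c + 3 ≠ 0 := by linarith
  have h3 : c + j + 1 ≠ 0 := by linarith
  have h7 : c + j + 3 ≠ 0 := by linarith
  have ha : a = (c + j + 4) / (c + j + 3) * b := by
    rw [div_mul_eq_mul_div, eq_div_iff h7]
    linarith
  rw [ha]
  push_cast
  have h4 : c + (j + 1) + 1 ≠ 0 := by linarith
  have h5 : c + j + 1 + 1 ≠ 0 := by linarith
  have h6 : c + j + 1 + 2 ≠ 0 := by linarith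
  field_simp
  ring

theorem vg_ss (c : ℝ) (hc : 0 ≤ c) (j m : ℕ) :
    vg c (j + 1) (m + 1) = vg c (j + 2) m + E (c + j + 1) * vg c j (m + 1) := by
  have h := congrArg (coeff (m + 1)) (Ug_rec c j)
  simp only [coeff_C_mul, LinearMap.map_add, coeff_succ_X_mul] at h
  unfold vg E
  have hj : (0 : ℝ) ≤ j := Nat.cast_nonneg j
  generalize coeff (m + 1) (Ug c (j + 1)) = a at *
  generalize coeff (m + 1) (Ug c j) = b at *
  generalize coeff m (Ug c (j + 2)) = d at *
  have h1 : c + 2 ≠ 0 := by linarith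
  have h2 : c + 3 ≠ 0 := by linarith
  have h3 : c + j + 1 ≠ 0 := by linarith
  have h7 : c + j + 3 ≠ 0 := by linarith
  have ha : a = (2 * (c + j + 2) * d + (c + j + 4) * b) / (c + j + 3) := by
    rw [eq_div_iff h7]
    linarith
  rw [ha]
  push_cast
  have h4 : c + (j + 1) + 1 ≠ 0 := by linarith
  have h5 : c + j + 1 + 1 ≠ 0 := by linarith
  have h6 : c + j + 1 + 2 ≠ 0 := by linarith
  have h8 : c + (j + 2) + 1 ≠ 0 := by linarith
  field_simp
  ring

theorem vg_nonneg (c : ℝ) (hc : 0 ≤ c) : ∀ n j m : ℕ, 2 * m + j = n → 0 ≤ vg c j m := by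
  intro n
  induction n using Nat.strong_induction_on with
  | _ n ih =>
    intro j m hjm
    rcases j with _ | j
    · rcases m with _ | m
      · rw [vg_00 c hc]; norm_num
      · rw [vg_0s c hc]
        exact ih (2 * m + 1) (by omega) 1 m rfl
    · have hE : 0 ≤ E (c + j + 1) := E_nonneg (by positivity)
      rcases m with _ | m
      · rw [vg_s0 c hc]
        exact mul_nonneg hE (ih (2 * 0 + j) (by omega) j 0 rfl)
      · rw [vg_ss c hc]
        exact add_nonneg (ih (2 * m + (j + 2)) (by omega) (j + 2) m rfl)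
          (mul_nonneg hE (ih (2 * (m + 1) + j) (by omega) j (m + 1) rfl))

/-- the path sums with the critical weights -/
theorem T_eq_vg (h : ℕ) (δ : ℝ) (hδ : 0 ≤ δ) : ∀ n j m : ℕ, 2 * m + j = n →
    T (fun l => ENNReal.ofReal (E (l + δ))) h n (h + j) h = ENNReal.ofReal (vg (h + δ) j m) := by
  have hc : 0 ≤ (h : ℝ) + δ := by positivity
  intro n
  induction n using Nat.strong_induction_on with
  | _ n ih =>
    intro j m hjm
    rcases n with _ | n
    · have h1 : j = 0 := by omega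
      have h2 : m = 0 := by omega
      subst h1 h2
      simp [T, vg_00 _ hc]
    · rcases j with _ | j
      · obtain ⟨m, rfl⟩ : ∃ k, m = k + 1 := ⟨m - 1, by omega⟩
        rw [vg_0s _ hc, T]
        have := ih n (by omega) 1 m (by omega)
        simp only [add_zero, lt_irrefl, if_false]
        exact this
      · have hlt : h < h + (j + 1) := by omega
        rw [T, if_pos hlt]
        have e1 : h + (j + 1) - 1 = h + j := by omega
        have e2 : h + (j + 1) + 1 = h + (j + 2) := by omega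
        rw [e1, e2]
        have e3 : (((h + (j + 1) : ℕ) : ℝ) + δ) = (h + δ) + j + 1 := by push_cast; ring
        have hE : 0 ≤ E ((h + δ) + j + 1) := E_nonneg (by positivity)
        rcases m with _ | m
        · rw [vg_s0 _ hc, ih n (by omega) j 0 (by omega), e3, ← ENNReal.ofReal_mul hE]
          -- the up step cannot come back
          have hz : T (fun l => ENNReal.ofReal (E (l + δ))) h n (h + (j + 2)) h = 0 := by
            have key : ∀ k a : ℕ, h + k < a → T (fun l => ENNReal.ofReal (E (l + δ))) h k a h = 0 := by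
              intro k
              induction k with
              | zero => intro a ha; simp only [T]; rw [if_neg (by omega)]
              | succ k ih2 =>
                intro a ha
                rw [T, ih2 (a + 1) (by omega)]
                split_ifs
                · rw [ih2 (a - 1) (by omega)]; simp
                · simp
            exact key n _ (by omega)
          rw [hz, zero_add]
        · rw [vg_ss _ hc, ih n (by omega) (j + 2) m (by omega), ih n (by omega) j (m + 1) (by omega), e3,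
            ← ENNReal.ofReal_mul hE, ← ENNReal.ofReal_add]
          · exact vg_nonneg _ hc _ _ _ rfl
          · exact mul_nonneg hE (vg_nonneg _ hc _ _ _ rfl)

end

end QRC
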