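import Pool.Agent.Helper71.QRC.GF

namespace QRC

open scoped ENNReal
open QR

noncomputable section

/-- weights given by real functions -/
def mkW (w t : ℤ → ℝ) : Wts := ⟨fun l => ENNReal.ofReal (w l), fun l => ENNReal.ofReal (t l)⟩

/-- supersolution principle for real weights, positive labels -/
theorem Gf_le_real (w t s : ℤ → ℝ) (hw : ∀ l, 0 ≤ w l) (ht : ∀ l, 0 ≤ t l) (hs : ∀ l, 1 ≤ l → 0 ≤ s l)
    (h0 : ∀ l ≤ 0, w l = 0)
    (h : ∀ l, 1 ≤ l → t l * (1 + 1 / 12 * (w (l - 1) * s (l - 1) + w l * s l + w (l + 1) * s (l + 1)) * s l)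
      ≤ s l) (l : ℤ) (hl : 1 ≤ l) : Gf (mkW w t) l ≤ ENNReal.ofReal (s l) := by
  have key := Gf_le_of_super (mkW w t) (fun l => if 1 ≤ l then ENNReal.ofReal (s l) else ⊤) ?_ l
  · simpa [hl] using key
  · intro l
    by_cases hl : 1 ≤ l
    · have e1 : ∀ k : ℤ, (mkW w t).w k * (if 1 ≤ k then ENNReal.ofReal (s k) else ⊤) =
          ENNReal.ofReal (w k * s k) := by
        intro k
        by_cases hk : 1 ≤ k
        · simp only [hk, if_true, mkW]
          rw [ENNReal.ofReal_mul (hw k)]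
        · simp only [hk, if_false, mkW]
          rw [h0 k (by omega)]; simp
      simp only [e1]
      rw [sum_stp (fun k => ENNReal.ofReal (w k * s k)) l]
      have p : ∀ k, 0 ≤ w k * s k := by
        intro k
        by_cases hk : 1 ≤ k
        · exact mul_nonneg (hw k) (hs k hk)
        · rw [h0 k (by omega)]; simp
      have hsl := hs l hl
      simp only [hl, if_true, mkW]
      rw [← ENNReal.ofReal_add (p _) (p _), ← ENNReal.ofReal_add (add_nonneg (p _) (p _)) (p _)]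
      have e12 : (12 : ℝ≥0∞)⁻¹ = ENNReal.ofReal (1 / 12) := by
        rw [one_div, ENNReal.ofReal_inv_of_pos (by norm_num)]; norm_num
      rw [e12, ← ENNReal.ofReal_mul (by norm_num), ← ENNReal.ofReal_mul
        (mul_nonneg (by norm_num) (add_nonneg (add_nonneg (p _) (p _)) (p _))), ← ENNReal.ofReal_one,
        ← ENNReal.ofReal_add (by norm_num) (mul_nonneg (mul_nonneg (by norm_num)
          (add_nonneg (add_nonneg (p _) (p _)) (p _))) hsl), ← ENNReal.ofReal_mul (ht l)]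
      exact ENNReal.ofReal_le_ofReal (h l hl)
    · simp [hl]

theorem Rf_le_real (w t s : ℤ → ℝ) (hw : ∀ l, 0 ≤ w l) (ht : ∀ l, 0 ≤ t l) (hs : ∀ l, 1 ≤ l → 0 ≤ s l)
    (h0 : ∀ l ≤ 0, w l = 0)
    (h : ∀ l, 1 ≤ l → t l * (1 + 1 / 12 * (w (l - 1) * s (l - 1) + w l * s l + w (l + 1) * s (l + 1)) * s l)
      ≤ s l) (l : ℤ) : Rf (mkW w t) l ≤ ENNReal.ofReal (w l * s l) := by
  by_cases hl : 1 ≤ l
  · rw [Rf, ENNReal.ofReal_mul (hw l)]
    have hGl := Gf_le_real w t s hw ht hs h0 h l hl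
    have e : (mkW w t).w l = ENNReal.ofReal (w l) := rfl
    rw [e]
    gcongr
  · rw [Rf]
    simp only [mkW]
    rw [h0 l (by omega)]; simp

/-- the recursion in the real numbers -/
theorem Rf_rec_real (w t : ℤ → ℝ) (hw : ∀ l, 0 ≤ w l) (ht : ∀ l, 0 ≤ t l)
    (hfin : ∀ l, Rf (mkW w t) l ≠ ⊤) (l : ℤ) (hG : Gf (mkW w t) l ≠ ⊤) :
    (Rf (mkW w t) l).toReal * (1 - t l / 12 * ((Rf (mkW w t) (l - 1)).toReal +
      (Rf (mkW w t) l).toReal + (Rf (mkW w t) (l + 1)).toReal)) = w l * t l := by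
  have h := congrArg ENNReal.toReal (Gf_rec (mkW w t) l)
  rw [sum_stp (fun k => Rf (mkW w t) k) l] at h
  have f1 : Rf (mkW w t) (l - 1) + Rf (mkW w t) l ≠ ⊤ := ENNReal.add_ne_top.2 ⟨hfin _, hfin _⟩
  have f2 : Rf (mkW w t) (l - 1) + Rf (mkW w t) l + Rf (mkW w t) (l + 1) ≠ ⊤ :=
    ENNReal.add_ne_top.2 ⟨f1, hfin _⟩
  have f3 : (12 : ℝ≥0∞)⁻¹ * (Rf (mkW w t) (l - 1) + Rf (mkW w t) l + Rf (mkW w t) (l + 1)) *
      Gf (mkW w t) l ≠ ⊤ := ENNReal.mul_ne_top (ENNReal.mul_ne_top (by simp) f2) hG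
  rw [ENNReal.toReal_mul, ENNReal.toReal_add ENNReal.one_ne_top f3, ENNReal.toReal_mul,
    ENNReal.toReal_mul, ENNReal.toReal_add f1 (hfin _), ENNReal.toReal_add (hfin _) (hfin _)] at h
  have e1 : ((mkW w t).t l).toReal = t l := by simp [mkW, ENNReal.toReal_ofReal (ht l)]
  have e2 : (Rf (mkW w t) l).toReal = w l * (Gf (mkW w t) l).toReal := by
    rw [Rf, ENNReal.toReal_mul]; simp [mkW, ENNReal.toReal_ofReal (hw l)]
  have e3 : ((12 : ℝ≥0∞)⁻¹).toReal = 1 / 12 := by simp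
  rw [e1, e3, ENNReal.toReal_one] at h
  generalize (Rf (mkW w t) (l - 1)).toReal = x1 at *
  generalize (Rf (mkW w t) (l + 1)).toReal = x3 at *
  generalize (Gf (mkW w t) l).toReal = y at *
  generalize (Rf (mkW w t) l).toReal = x2 at *
  subst e2
  linear_combination w l * h

/-- the critical solution -/
def E (x : ℝ) : ℝ := 2 * x * (x + 3) / ((x + 1) * (x + 2))

theorem E_nonneg {x : ℝ} (hx : 0 ≤ x) : 0 ≤ E x := by
  unfold E; positivity

theorem E_le_two {x : ℝ} (hx : 0 ≤ x) : E x ≤ 2 := by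
  unfold E
  rw [div_le_iff₀ (by positivity)]
  nlinarith

theorem E_pos {x : ℝ} (hx : 0 < x) : 0 < E x := by
  unfold E; positivity

theorem E_rec {x : ℝ} (hx : 1 ≤ x) : 1 + 1 / 12 * (E (x - 1) + E x + E (x + 1)) * E x = E x := by
  unfold E
  have h1 : x ≠ 0 := by linarith
  have h2 : x + 1 ≠ 0 := by linarith
  have h3 : x + 2 ≠ 0 := by linarith
  have h4 : x + 3 ≠ 0 := by linarith
  have h5 : x - 1 + 1 ≠ 0 := by linarith
  have h6 : x - 1 + 2 ≠ 0 := by linarith
  have h7 : x + 1 + 1 ≠ 0 := by linarith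
  have h8 : x + 1 + 2 ≠ 0 := by linarith
  field_simp
  ring

theorem E_mono {x y : ℝ} (hx : 0 ≤ x) (hxy : x ≤ y) : E x ≤ E y := by
  have e : ∀ z : ℝ, 0 ≤ z → E z = 2 - 4 / ((z + 1) * (z + 2)) := by
    intro z hz
    unfold E
    field_simp
    ring
  rw [e x hx, e y (hx.trans hxy)]
  have : 4 / ((y + 1) * (y + 2)) ≤ 4 / ((x + 1) * (x + 2)) := by
    apply div_le_div_of_nonneg_left (by norm_num) (by positivity)
    nlinarith
  linarith

/-- a bounded convex sequence is nonincreasing -/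
theorem antitone_of_convex (d : ℕ → ℝ) (B : ℝ) (hB : ∀ n, d n ≤ B)
    (hc : ∀ n, 2 * d (n + 1) ≤ d n + d (n + 2)) : Antitone d := by
  refine antitone_nat_of_succ_le fun k => ?_
  by_contra hk
  push Not at hk
  have hinc : ∀ m, d (k + 1) - d k ≤ d (k + m + 1) - d (k + m) := by
    intro m
    induction m with
    | zero => simp
    | succ m ih =>
      have := hc (k + m)
      have e : k + (m + 1) = k + m + 1 := by ring
      rw [e]
      have e2 : k + m + 1 + 1 = k + m + 2 := by ring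
      rw [e2]
      linarith
  have hlin : ∀ m : ℕ, d k + m * (d (k + 1) - d k) ≤ d (k + m) := by
    intro m
    induction m with
    | zero => simp
    | succ m ih =>
      have := hinc m
      have e : k + (m + 1) = k + m + 1 := by ring
      rw [e]; push_cast
      linarith
  obtain ⟨m, hm⟩ := exists_nat_gt ((B - d k) / (d (k + 1) - d k))
  have hpos : 0 < d (k + 1) - d k := by linarith
  rw [div_lt_iff₀ hpos] at hm
  have := hlin m
  have := hB (k + m)
  linarith

/-- positive labels, no further weights -/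
def w0 (l : ℤ) : ℝ := if 1 ≤ l then 1 else 0

def W0 : Wts := mkW w0 (fun _ => 1)

theorem w0_nonneg (l : ℤ) : 0 ≤ w0 l := by unfold w0; split_ifs <;> norm_num

theorem w0_zero (l : ℤ) (h : l ≤ 0) : w0 l = 0 := by unfold w0; rw [if_neg (by omega)]

theorem w0_one (l : ℤ) (h : 1 ≤ l) : w0 l = 1 := by unfold w0; rw [if_pos h]

theorem w0_mul_E (l : ℤ) (h : 0 ≤ l) : w0 l * E l = E l := by
  rcases h.eq_or_lt with h | h
  · subst h; simp [w0, E]
  · rw [w0_one l h, one_mul]

theorem Gf_W0_le (l : ℤ) (hl : 1 ≤ l) : Gf W0 l ≤ ENNReal.ofReal (E l) := by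
  refine Gf_le_real w0 (fun _ => 1) (fun l => E l) w0_nonneg (fun _ => zero_le_one) ?_ w0_zero ?_ l hl
  · intro l hl
    exact E_nonneg (by exact_mod_cast (by omega : (0:ℤ) ≤ l))
  · intro l hl
    rw [w0_mul_E (l - 1) (by omega), w0_mul_E l (by omega), w0_mul_E (l + 1) (by omega), one_mul]
    have : (1 : ℝ) ≤ (l : ℝ) := by exact_mod_cast hl
    have := E_rec this
    push_cast
    linarith

theorem Rf_W0_le (l : ℤ) : Rf W0 l ≤ ENNReal.ofReal (w0 l * E l) := by
  refine Rf_le_real w0 (fun _ => 1) (fun l => E l) w0_nonneg (fun _ => zero_le_one) ?_ w0_zero ?_ l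
  · intro l hl
    exact E_nonneg (by exact_mod_cast (by omega : (0:ℤ) ≤ l))
  · intro l hl
    rw [w0_mul_E (l - 1) (by omega), w0_mul_E l (by omega), w0_mul_E (l + 1) (by omega), one_mul]
    have : (1 : ℝ) ≤ (l : ℝ) := by exact_mod_cast hl
    have := E_rec this
    push_cast
    linarith

/-- the critical generating function is exact -/
theorem Rf_W0 (l : ℤ) (hl : 0 ≤ l) : Rf W0 l = ENNReal.ofReal (E l) := by
  have hfin : ∀ l, Rf W0 l ≠ ⊤ := fun l => ne_top_of_le_ne_top ENNReal.ofReal_ne_top (Rf_W0_le l)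
  have hG : ∀ l, 1 ≤ l → Gf W0 l ≠ ⊤ := fun l hl => ne_top_of_le_ne_top ENNReal.ofReal_ne_top (Gf_W0_le l hl)
  have hrec : ∀ l, 1 ≤ l → (Rf W0 l).toReal * (1 - 1 / 12 * ((Rf W0 (l - 1)).toReal +
      (Rf W0 l).toReal + (Rf W0 (l + 1)).toReal)) = 1 := by
    intro l hl
    have := Rf_rec_real w0 (fun _ => 1) w0_nonneg (fun _ => zero_le_one) hfin l (hG l hl)
    rw [w0_one l hl, one_mul] at this
    exact this
  have hle : ∀ l, 0 ≤ l → (Rf W0 l).toReal ≤ E l := by
    intro l hl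
    have := ENNReal.toReal_mono ENNReal.ofReal_ne_top (Rf_W0_le l)
    rwa [w0_mul_E l hl, ENNReal.toReal_ofReal] at this
    exact E_nonneg (by exact_mod_cast hl)
  set x : ℤ → ℝ := fun l => (Rf W0 l).toReal with hx
  have hx0 : ∀ l, 0 ≤ x l := fun l => ENNReal.toReal_nonneg
  let d : ℕ → ℝ := fun n => E n - x n
  have hd0 : ∀ n, 0 ≤ d n := by
    intro n
    have := hle (n : ℤ) (by omega)
    simp only [d, Int.cast_natCast] at this ⊢
    linarith
  have hconv : ∀ n, 2 * d (n + 1) ≤ d n + d (n + 2) := by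
    intro n
    have h1 := hrec ((n : ℤ) + 1) (by omega)
    have h2 := E_rec (x := (n : ℝ) + 1) (by linarith [Nat.cast_nonneg (α := ℝ) n])
    have e1 : ((n : ℤ) + 1 - 1) = n := by ring
    have e2 : ((n : ℤ) + 1 + 1) = ((n + 2 : ℕ) : ℤ) := by push_cast; ring
    have e3 : ((n : ℤ) + 1) = ((n + 1 : ℕ) : ℤ) := by push_cast; ring
    rw [e1, e2, e3] at h1
    have e4 : (n : ℝ) + 1 - 1 = n := by ring
    have e5 : (n : ℝ) + 1 + 1 = ((n + 2 : ℕ) : ℝ) := by push_cast; ring
    have e6 : (n : ℝ) + 1 = ((n + 1 : ℕ) : ℝ) := by push_cast; ring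
    rw [e4, e5, e6] at h2
    have hb : 0 ≤ d n := hd0 n
    have hb1 : 0 ≤ d (n + 1) := hd0 (n + 1)
    have hb2 : 0 ≤ d (n + 2) := hd0 (n + 2)
    have hE1 : E ((n + 1 : ℕ) : ℝ) ≤ 2 := E_le_two (by positivity)
    have hE0 : 0 ≤ E ((n + 1 : ℕ) : ℝ) := E_nonneg (by positivity)
    have hx1 : x ((n + 1 : ℕ) : ℤ) ≤ 2 := by
      have := hle ((n + 1 : ℕ) : ℤ) (by omega)
      have h3 : ((((n + 1 : ℕ) : ℤ)) : ℝ) = ((n + 1 : ℕ) : ℝ) := by push_cast; ring
      rw [h3] at this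
      exact this.trans hE1
    have hx1' := hx0 ((n + 1 : ℕ) : ℤ)
    simp only [d] at hb hb1 hb2 ⊢
    change x ((n + 1 : ℕ) : ℤ) * (1 - 1 / 12 * (x (n : ℤ) + x ((n + 1 : ℕ) : ℤ) + x ((n + 2 : ℕ) : ℤ))) = 1 at h1
    generalize x ((n + 1 : ℕ) : ℤ) = b at *
    generalize x ((n : ℕ) : ℤ) = a at *
    generalize x ((n + 2 : ℕ) : ℤ) = c at *
    generalize E ((n + 1 : ℕ) : ℝ) = B at *
    generalize E ((n : ℕ) : ℝ) = A at *
    generalize E ((n + 2 : ℕ) : ℝ) = C at *
    have hBb : B * b ≤ 4 := by nlinarith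
    have key : B - b = 1 / 12 * (B * b) * ((A - a) + (B - b) + (C - c)) := by
      linear_combination (-B) * h1 - b * h2
    have hs : 0 ≤ (A - a) + (B - b) + (C - c) := by linarith
    have : B - b ≤ 1 / 12 * 4 * ((A - a) + (B - b) + (C - c)) := by
      rw [key]
      nlinarith
    linarith
  have hanti := antitone_of_convex d 2 (fun n => by
    have : E (n : ℝ) ≤ 2 := E_le_two (by positivity)
    have := hx0 n
    simp only [d]
    linarith) hconv
  obtain ⟨n, rfl⟩ := Int.eq_ofNat_of_zero_le hl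
  have h0 : d 0 = 0 := by
    have h1 : Rf W0 0 = 0 := by
      have := Rf_W0_le 0
      simpa [w0] using this
    have : x ((0 : ℕ) : ℤ) = 0 := by simp [hx, h1]
    simp only [d, this]
    simp [E]
  have h1 : d n ≤ d 0 := hanti (Nat.zero_le n)
  have h2 : d n = 0 := le_antisymm (by rw [h0] at h1; exact h1) (hd0 n)
  have h3 : x (n : ℤ) = E n := by simp only [d] at h2; linarith
  rw [← ENNReal.ofReal_toReal (hfin n)]
  congr 1

/-- weight `9/8` at every corner of label `1` -/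
def t1 (l : ℤ) : ℝ := if l = 1 then 9 / 8 else 1

def W1 : Wts := mkW w0 t1

theorem Rf_W1_le (l : ℤ) (hl : 0 ≤ l) : Rf W1 l ≤ ENNReal.ofReal (E (l + 1)) := by
  have hh := Rf_le_real w0 t1 (fun l => E (l + 1)) w0_nonneg ?_ ?_ w0_zero ?_ l
  · refine hh.trans (ENNReal.ofReal_le_ofReal ?_)
    have h1 : w0 l ≤ 1 := by unfold w0; split_ifs <;> norm_num
    have h2 : 0 ≤ E ((l : ℝ) + 1) := E_nonneg (by have : (0:ℝ) ≤ l := by exact_mod_cast hl
                                                  linarith)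
    nlinarith
  · intro l; unfold t1; split_ifs <;> norm_num
  · intro l hl
    exact E_nonneg (by have : (1:ℝ) ≤ l := by exact_mod_cast hl
                       linarith)
  · intro l hl
    rcases hl.eq_or_lt with h | h
    · subst h
      simp only [t1, w0]
      norm_num [E]
    · have hl' : (1 : ℤ) < l := h
      rw [w0_one (l - 1) (by omega), w0_one l (by omega), w0_one (l + 1) (by omega)]
      unfold t1
      rw [if_neg (by omega)]
      have : (1 : ℝ) ≤ (l : ℝ) + 1 := by have : (1:ℝ) ≤ l := by exact_mod_cast hl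
                                         linarith
      have := E_rec this
      push_cast
      have e : (l : ℝ) - 1 + 1 = l + 1 - 1 := by ring
      rw [e]
      linarith

end

end QRC
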