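import Pool.Agent.Helper71.QRC.Defs

namespace QRC

open scoped ENNReal
open QR

noncomputable section

/-- the binary decomposition of forests -/
def foEquiv : Fo ≃ Unit ⊕ (Fin 3 × Fo × Fo) where
  toFun f := match f with
    | .nil => Sum.inl ()
    | .node e L Rt => Sum.inr (e, L, Rt)
  invFun o := match o with
    | Sum.inl _ => .nil
    | Sum.inr (e, L, Rt) => .node e L Rt
  left_inv f := by cases f <;> rfl
  right_inv o := by rcases o with _ | ⟨e, L, Rt⟩ <;> rfl

theorem tsum_fo (F : Fo → ℝ≥0∞) :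
    ∑' f, F f = F .nil + ∑ e : Fin 3, ∑' L : Fo, ∑' Rt : Fo, F (.node e L Rt) := by
  rw [← foEquiv.symm.tsum_eq F,
    Summable.tsum_sum ENNReal.summable ENNReal.summable]
  congr 1
  · rw [tsum_fintype]
    simp [foEquiv]
  · rw [← tsum_fintype (L := .unconditional (Fin 3))]
    have := ENNReal.tsum_prod' (f := fun x : Fin 3 × Fo × Fo => F (.node x.1 x.2.1 x.2.2))
    rw [show (∑' b : Fin 3 × Fo × Fo, F (foEquiv.symm (Sum.inr b))) =
      ∑' x : Fin 3 × Fo × Fo, F (.node x.1 x.2.1 x.2.2) from rfl, this]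
    refine tsum_congr fun e => ?_
    exact ENNReal.tsum_prod' (f := fun x : Fo × Fo => F (.node e x.1 x.2))

/-- the recursion of the generating functions -/
theorem Gf_rec (W : Wts) (l : ℤ) :
    Gf W l = W.t l * (1 + (12 : ℝ≥0∞)⁻¹ * (∑ e : Fin 3, Rf W (l + stp e)) * Gf W l) := by
  conv_lhs => rw [Gf, tsum_fo]
  simp only [wt, ENNReal.tsum_mul_left, ENNReal.tsum_mul_right]
  rw [mul_add, mul_one]
  congr 1
  rw [Finset.mul_sum, Finset.sum_mul, Finset.mul_sum]
  refine Finset.sum_congr rfl fun e _ => ?_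
  simp only [Rf, Gf]
  ring

/-- truncated generating functions -/
def Gn (W : Wts) (n : ℕ) (l : ℤ) : ℝ≥0∞ := ∑' f : Fo, if f.numNodes < n then wt W l f else 0

theorem Gn_le_Gf (W : Wts) (n : ℕ) (l : ℤ) : Gn W n l ≤ Gf W l := by
  refine ENNReal.tsum_le_tsum fun f => ?_
  split_ifs <;> simp

theorem Gn_succ_le (W : Wts) (n : ℕ) (l : ℤ) :
    Gn W (n + 1) l ≤ W.t l * (1 + (12 : ℝ≥0∞)⁻¹ *
      (∑ e : Fin 3, W.w (l + stp e) * Gn W n (l + stp e)) * Gn W n l) := by
  rw [Gn, tsum_fo, mul_add, mul_one]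
  refine add_le_add ?_ ?_
  · simp [BinaryTree.numNodes, wt]
  · rw [Finset.mul_sum, Finset.sum_mul, Finset.mul_sum]
    refine Finset.sum_le_sum fun e _ => ?_
    have h1 : W.t l * ((12 : ℝ≥0∞)⁻¹ * (W.w (l + stp e) * Gn W n (l + stp e)) * Gn W n l) =
        ∑' L : Fo, ∑' Rt : Fo, W.t l * ((12 : ℝ≥0∞)⁻¹ * (W.w (l + stp e) *
          ((if L.numNodes < n then wt W (l + stp e) L else 0) * (if Rt.numNodes < n then wt W l Rt else 0)))) := by
      simp only [Gn, ENNReal.tsum_mul_left, ENNReal.tsum_mul_right]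
      ring
    rw [h1]
    refine ENNReal.tsum_le_tsum fun L => ENNReal.tsum_le_tsum fun Rt => ?_
    by_cases h : BinaryTree.numNodes (.node e L Rt : Fo) < n + 1
    · have h' := h
      simp only [BinaryTree.numNodes] at h'
      have h2 : L.numNodes < n := by omega
      have h3 : Rt.numNodes < n := by omega
      rw [if_pos h, if_pos h2, if_pos h3, wt]
    · rw [if_neg h]
      exact zero_le

theorem Gf_le_of_Gn (W : Wts) (l : ℤ) (B : ℝ≥0∞) (h : ∀ n, Gn W n l ≤ B) : Gf W l ≤ B := by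
  rw [Gf, ENNReal.tsum_eq_iSup_sum]
  refine iSup_le fun s => ?_
  refine le_trans ?_ (h ((s.sup BinaryTree.numNodes) + 1))
  rw [Gn]
  refine le_trans ?_ (ENNReal.sum_le_tsum s)
  refine Finset.sum_le_sum fun f hf => ?_
  have : f.numNodes < s.sup BinaryTree.numNodes + 1 := Nat.lt_succ_of_le (Finset.le_sup hf)
  simp [this]

/-- supersolutions dominate the generating functions -/
theorem Gf_le_of_super (W : Wts) (S : ℤ → ℝ≥0∞)
    (h : ∀ l, W.t l * (1 + (12 : ℝ≥0∞)⁻¹ * (∑ e : Fin 3, W.w (l + stp e) * S (l + stp e)) * S l) ≤ S l)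
    (l : ℤ) : Gf W l ≤ S l := by
  have key : ∀ n l, Gn W n l ≤ S l := by
    intro n
    induction n with
    | zero => intro l; simp [Gn]
    | succ n ih =>
      intro l
      refine le_trans (Gn_succ_le W n l) (le_trans ?_ (h l))
      gcongr
      · exact ih _
      · exact ih _
  exact Gf_le_of_Gn W l _ fun n => key n l

theorem sum_stp (f : ℤ → ℝ≥0∞) (l : ℤ) : ∑ e : Fin 3, f (l + stp e) = f (l - 1) + f l + f (l + 1) := by
  simp [Fin.sum_univ_three, stp, sub_eq_add_neg]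

end

end QRC
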