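import Pool.Agent.Helper71.QRC.Dy

namespace QRC

open scoped ENNReal
open PowerSeries

noncomputable section

/-- the central binomial coefficients -/
def Bc (p i : ℕ) : ℝ := ((2 * p).choose (p + i) : ℝ)

def al (p i : ℕ) : ℝ := 2 ^ p * (Bc p i - Bc p (i + 1))

theorem Bc_succ (p i : ℕ) : Bc (p + 1) (i + 1) = Bc p (i + 2) + 2 * Bc p (i + 1) + Bc p i := by
  unfold Bc
  have e1 : 2 * (p + 1) = 2 * p + 1 + 1 := by ring
  have e2 : p + 1 + (i + 1) = p + i + 1 + 1 := by ring
  have e3 : p + (i + 2) = p + i + 1 + 1 := by ring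
  have e4 : p + (i + 1) = p + i + 1 := by ring
  rw [e1, e2, e3, e4, Nat.choose_succ_succ, Nat.choose_succ_succ, Nat.choose_succ_succ (2 * p) (p + i + 1)]
  push_cast
  ring

theorem Bc_zero (p : ℕ) : Bc (p + 1) 0 = 2 * Bc p 0 + 2 * Bc p 1 := by
  unfold Bc
  have e1 : 2 * (p + 1) = 2 * p + 1 + 1 := by ring
  have e2 : p + 1 + 0 = p + 1 := by ring
  have h : (2 * p + 1).choose p = (2 * p + 1).choose (p + 1) := (Nat.choose_symm_half p).symm
  rw [e1, e2, Nat.choose_succ_succ, h, Nat.choose_succ_succ (2 * p) p, Nat.succ_eq_add_one]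
  push_cast
  ring

theorem al_rec0 (p : ℕ) : al (p + 1) 0 = 2 * (al p 0 + al p 1) := by
  unfold al
  rw [Bc_zero, Bc_succ, pow_succ]
  ring

theorem al_recS (p i : ℕ) : al (p + 1) (i + 1) = 2 * (al p i + 2 * al p (i + 1) + al p (i + 2)) := by
  unfold al
  rw [Bc_succ, Bc_succ, pow_succ]
  ring

theorem SY_rec (i : ℕ) : Sg * Yg ^ (i + 1) = X * (C 2 * (Sg * Yg ^ i + C 2 * (Sg * Yg ^ (i + 1)) + Sg * Yg ^ (i + 2))) := by
  have h1 := Yg_eq
  have h2 := Sg_Y
  have e2 : (C (2:ℝ) : ℝ⟦X⟧) = 2 := map_ofNat C 2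
  rw [e2]
  generalize (X : ℝ⟦X⟧) = x at *
  generalize Yg = y at *
  rw [h2] at h1 ⊢
  linear_combination (-(1 + y) * y ^ i) * h1

theorem SY_rec0 : Sg * Yg ^ 0 = 1 + X * (C 2 * (Sg * Yg ^ 0 + Sg * Yg ^ 1)) := by
  have h1 := Yg_eq
  have h2 := Sg_Y
  have e2 : (C (2:ℝ) : ℝ⟦X⟧) = 2 := map_ofNat C 2
  rw [e2]
  generalize (X : ℝ⟦X⟧) = x at *
  generalize Yg = y at *
  rw [h2] at h1 ⊢
  linear_combination -h1

theorem coeff_SY (p : ℕ) : ∀ i, coeff p (Sg * Yg ^ i) = al p i := by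
  induction p with
  | zero =>
    intro i
    rcases i with _ | i
    · rw [SY_rec0]
      simp [al, Bc]
    · rw [SY_rec, coeff_zero_X_mul]
      simp [al, Bc]
  | succ p ih =>
    intro i
    rcases i with _ | i
    · rw [SY_rec0, LinearMap.map_add, coeff_succ_X_mul, coeff_C_mul, LinearMap.map_add, ih, ih, al_rec0]
      simp [coeff_one]
    · rw [SY_rec, coeff_succ_X_mul, coeff_C_mul, LinearMap.map_add, LinearMap.map_add, coeff_C_mul, ih, ih,
        ih, al_recS]

theorem Bc_ratio (p i : ℕ) : ((p : ℝ) + i + 1) * Bc p (i + 1) = ((p : ℝ) - i) * Bc p i := by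
  unfold Bc
  have h := Nat.choose_succ_right_eq (2 * p) (p + i)
  by_cases hi : i ≤ p
  · have e : 2 * p - (p + i) = p - i := by omega
    rw [e] at h
    have h' := congrArg (fun n : ℕ => (n : ℝ)) h
    push_cast [Nat.cast_sub hi] at h'
    have e2 : p + (i + 1) = p + i + 1 := by ring
    rw [e2]
    linarith
  · rw [Nat.choose_eq_zero_of_lt (by omega), Nat.choose_eq_zero_of_lt (by omega)]
    simp

theorem Bc_nonneg (p i : ℕ) : 0 ≤ Bc p i := Nat.cast_nonneg _

theorem Bc_anti (p i : ℕ) : Bc p i ≤ Bc p 0 := by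
  unfold Bc
  have := Nat.choose_le_centralBinom (p + i) p
  unfold Nat.centralBinom at this
  simpa using (Nat.cast_le (α := ℝ)).2 this

/-- the value of `3 W_p` -/
theorem al_Wp (p : ℕ) : 3 * al p 0 - al p 1 = 3 * Wp p := by
  have h0 := Bc_ratio p 0
  have h1 := Bc_ratio p 1
  have hB : Bc p 0 = ((2 * p).factorial : ℝ) / ((p.factorial : ℝ) * p.factorial) := by
    unfold Bc
    rw [add_zero, Nat.choose_eq_factorial_div_factorial (by omega : p ≤ 2 * p)]
    have e : 2 * p - p = p := by omega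
    rw [e, Nat.cast_div]
    · push_cast; ring
    · have := Nat.factorial_mul_factorial_dvd_factorial (by omega : p ≤ 2 * p)
      rwa [e] at this
    · positivity
  unfold al Wp
  have hp : (0 : ℝ) ≤ p := Nat.cast_nonneg p
  have e1 : Bc p (0 + 1) = p / (p + 1) * Bc p 0 := by
    rw [div_mul_eq_mul_div, eq_div_iff (by positivity)]
    push_cast at h0
    linarith
  have e2 : Bc p (1 + 1) = (p - 1) / (p + 2) * Bc p 1 := by
    rw [div_mul_eq_mul_div, eq_div_iff (by positivity)]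
    push_cast at h1
    linarith
  have e1' : Bc p 1 = p / (p + 1) * Bc p 0 := by simpa using e1
  rw [e2, e1, hB, Nat.factorial_succ (p + 1), Nat.factorial_succ p]
  have hf : (p.factorial : ℝ) ≠ 0 := by positivity
  push_cast
  field_simp
  ring

/-- the third difference -/
theorem al_diff (p i : ℕ) : -(al p i - 2 * al p (i + 1) + al p (i + 2)) ≤ (2 * i + 3) * (3 * al p 0 - al p 1) := by
  have hp : (0 : ℝ) ≤ p := Nat.cast_nonneg p
  have hi : (0 : ℝ) ≤ i := Nat.cast_nonneg i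
  have r0 := Bc_ratio p i
  have r1 := Bc_ratio p (i + 1)
  have r2 := Bc_ratio p (i + 2)
  have s0 := Bc_ratio p 0
  have s1 := Bc_ratio p 1
  have hb := Bc_anti p i
  have hb0 := Bc_nonneg p i
  have hb00 := Bc_nonneg p 0
  have e1 : Bc p (i + 1) = (p - i) / (p + i + 1) * Bc p i := by
    rw [div_mul_eq_mul_div, eq_div_iff (by positivity)]; linarith
  have e2 : Bc p (i + 2) = (p - i - 1) / (p + i + 2) * Bc p (i + 1) := by
    rw [div_mul_eq_mul_div, eq_div_iff (by positivity)]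
    push_cast at r1; linarith
  have e3 : Bc p (i + 3) = (p - i - 2) / (p + i + 3) * Bc p (i + 2) := by
    rw [div_mul_eq_mul_div, eq_div_iff (by positivity)]
    push_cast at r2; linarith
  have f1 : Bc p 1 = p / (p + 1) * Bc p 0 := by
    rw [div_mul_eq_mul_div, eq_div_iff (by positivity)]
    push_cast at s0; linarith
  have f2 : Bc p 2 = (p - 1) / (p + 2) * Bc p 1 := by
    rw [div_mul_eq_mul_div, eq_div_iff (by positivity)]
    push_cast at s1; linarith
  have g1 : -(al p i - 2 * al p (i + 1) + al p (i + 2)) =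
      2 ^ p * (Bc p i * ((2 * i + 3) * (6 * p - 2 - 4 * (i * (i + 3)))) /
        ((p + i + 1) * (p + i + 2) * (p + i + 3))) := by
    unfold al
    have e3' : Bc p (i + 2 + 1) = (p - i - 2) / (p + i + 3) * Bc p (i + 2) := e3
    have e2' : Bc p (i + 1 + 1) = (p - i - 1) / (p + i + 2) * Bc p (i + 1) := e2
    rw [e3', e2', e1]
    field_simp
    ring
  have g2 : 3 * al p 0 - al p 1 = 2 ^ p * (6 * Bc p 0 / ((p + 1) * (p + 2))) := by
    unfold al
    have f2' : Bc p (1 + 1) = (p - 1) / (p + 2) * Bc p 1 := f2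
    have f1' : Bc p (0 + 1) = p / (p + 1) * Bc p 0 := f1
    rw [f2', f1']
    field_simp
    ring
  rw [g1, g2]
  have hpow : (0 : ℝ) < 2 ^ p := by positivity
  have key : Bc p i * ((2 * i + 3) * (6 * p - 2 - 4 * (i * (i + 3)))) /
        ((p + i + 1) * (p + i + 2) * (p + i + 3)) ≤ (2 * i + 3) * (6 * Bc p 0 / ((p + 1) * (p + 2))) := by
    have a1 : Bc p i * ((2 * i + 3) * (6 * p - 2 - 4 * (i * (i + 3)))) ≤ Bc p i * ((2 * i + 3) * (6 * (p + i + 3))) := by
      have : (2 * (i:ℝ) + 3) * (6 * p - 2 - 4 * (i * (i + 3))) ≤ (2 * i + 3) * (6 * (p + i + 3)) := by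
        apply mul_le_mul_of_nonneg_left _ (by positivity)
        nlinarith
      exact mul_le_mul_of_nonneg_left this hb0
    calc Bc p i * ((2 * i + 3) * (6 * p - 2 - 4 * (i * (i + 3)))) / ((p + i + 1) * (p + i + 2) * (p + i + 3))
        ≤ Bc p i * ((2 * i + 3) * (6 * (p + i + 3))) / ((p + i + 1) * (p + i + 2) * (p + i + 3)) := by
          gcongr
      _ = (2 * i + 3) * (6 * Bc p i / ((p + i + 1) * (p + i + 2))) := by
          field_simp
      _ ≤ (2 * i + 3) * (6 * Bc p 0 / ((p + 1) * (p + 2))) := by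
          gcongr
          · linarith
          · linarith
  calc 2 ^ p * (Bc p i * ((2 * i + 3) * (6 * p - 2 - 4 * (i * (i + 3)))) /
        ((p + i + 1) * (p + i + 2) * (p + i + 3))) ≤ 2 ^ p * ((2 * i + 3) * (6 * Bc p 0 / ((p + 1) * (p + 2)))) :=
        mul_le_mul_of_nonneg_left key hpow.le
    _ = _ := by ring

theorem Wp_pos (p : ℕ) : 0 < Wp p := by unfold Wp; positivity

/-- geometric sums -/
theorem geo (q : ℝ) (h0 : 0 ≤ q) (h1 : q < 1) (N : ℕ) :
    1 + ∑ i ∈ Finset.range N, q ^ (i + 1) * (2 * i + 3) ≤ (1 + q) / (1 - q) ^ 2 := by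
  have hq : 0 < 1 - q := by linarith
  have key : ∀ N : ℕ, 1 + ∑ i ∈ Finset.range N, q ^ (i + 1) * (2 * i + 3) =
      ((1 + q) - q ^ (N + 1) * ((2 * N + 3) - (2 * N + 1) * q)) / (1 - q) ^ 2 := by
    intro N
    induction N with
    | zero =>
      simp only [Finset.range_zero, Finset.sum_empty, add_zero, Nat.cast_zero]
      rw [eq_div_iff (by positivity)]
      ring
    | succ N ih =>
      rw [Finset.sum_range_succ, ← add_assoc, ih]
      push_cast
      field_simp
      ring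
  rw [key]
  apply div_le_div_of_nonneg_right _ (by positivity)
  have : 0 ≤ q ^ (N + 1) * ((2 * N + 3) - (2 * N + 1) * q) := by
    apply mul_nonneg (by positivity)
    have hN : (0 : ℝ) ≤ N := Nat.cast_nonneg N
    nlinarith
  linarith

/-- expansion of the closed form -/
theorem Ug_expand (c : ℝ) (hc : 0 ≤ c) (N : ℕ) :
    C 2 * Ug c 0 = (C 3 * (Sg * Yg ^ 0) - Sg * Yg ^ 1) +
      ∑ i ∈ Finset.range N, C ((c / (c + 2)) ^ (i + 1)) *
        (-(Sg * Yg ^ i - C 2 * (Sg * Yg ^ (i + 1)) + Sg * Yg ^ (i + 2))) -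
      Yg ^ N * (C (c * (c / (c + 2)) ^ N) * (Sg * (1 - Yg) ^ 2 * (Dg c)⁻¹)) := by
  have h3 := Dg_inv c hc
  have e2 : (C (2:ℝ) : ℝ⟦X⟧) = 2 := map_ofNat C 2
  have e3 : (C (3:ℝ) : ℝ⟦X⟧) = 3 := map_ofNat C 3
  induction N with
  | zero =>
    simp only [Finset.range_zero, Finset.sum_empty, pow_zero, mul_one, add_zero, one_mul, pow_one]
    unfold Ug Ng
    have h2 := Sg_Y
    unfold Dg at h3 ⊢
    push_cast at h3 ⊢
    simp only [map_add, e2, e3, add_zero, map_one] at h3 ⊢
    generalize C c = a at *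
    generalize ((a + 2) - a * Yg)⁻¹ = I at *
    generalize Yg = y at *
    generalize Sg = s at *
    have key : 2 * ((a + 3) - (a + 1) * y) = (3 - y) * ((a + 2) - a * y) - a * (1 - y) ^ 2 := by ring
    simp only [pow_one]
    linear_combination (s * I) * key + (s * (3 - y)) * h3
  | succ N ih =>
    rw [ih, Finset.sum_range_succ]
    have hc2 : c + 2 ≠ 0 := by linarith
    have e5 : C (c * (c / (c + 2)) ^ N) = C ((c / (c + 2)) ^ (N + 1)) * C (c + 2) := by
      rw [← map_mul]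
      congr 1
      rw [pow_succ]
      field_simp
    have e6 : C (c * (c / (c + 2)) ^ (N + 1)) = C ((c / (c + 2)) ^ (N + 1)) * C c := by
      rw [← map_mul]
      congr 1
      ring
    rw [e5, e6, e2]
    unfold Dg at h3 ⊢
    generalize C (c + 2) = b at *
    generalize C c = a at *
    generalize C ((c / (c + 2)) ^ (N + 1)) = r at *
    generalize (b - a * Yg)⁻¹ = I at *
    generalize Yg = y at *
    generalize Sg = s at *
    linear_combination (-(r * s * y ^ N * (1 - y) ^ 2)) * h3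

theorem coeff_Y_mul (N p : ℕ) (h : p < N) (F : ℝ⟦X⟧) : coeff p (Yg ^ N * F) = 0 := by
  have hd : (X : ℝ⟦X⟧) ∣ Yg := by
    rw [X_dvd_iff, ← coeff_zero_eq_constantCoeff_apply]
    rw [coeff_zero_eq_constantCoeff_apply, constY]
  have : (X : ℝ⟦X⟧) ^ N ∣ Yg ^ N * F := (pow_dvd_pow_of_dvd hd N).mul_right F
  exact (X_pow_dvd_iff.1 this) p h

theorem coeff_U (c : ℝ) (hc : 0 ≤ c) (p : ℕ) :
    2 * coeff p (Ug c 0) ≤ 3 * Wp p * ((c + 1) * (c + 2) / 2) := by
  have h := congrArg (coeff p) (Ug_expand c hc (p + 1))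
  rw [LinearMap.map_sub, LinearMap.map_add, LinearMap.map_sub, coeff_C_mul, coeff_C_mul, coeff_SY, coeff_SY,
    coeff_Y_mul (p + 1) p (by omega), sub_zero, map_sum] at h
  rw [h, al_Wp]
  set q : ℝ := c / (c + 2) with hq
  have hc2 : 0 < c + 2 := by linarith
  have q0 : 0 ≤ q := by positivity
  have q1 : q < 1 := by rw [hq, div_lt_one hc2]; linarith
  have hterm : ∀ i ∈ Finset.range (p + 1), coeff p (C (q ^ (i + 1)) *
        (-(Sg * Yg ^ i - C 2 * (Sg * Yg ^ (i + 1)) + Sg * Yg ^ (i + 2)))) ≤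
        q ^ (i + 1) * (2 * i + 3) * (3 * Wp p) := by
    intro i _
    rw [coeff_C_mul, LinearMap.map_neg, LinearMap.map_add, LinearMap.map_sub, coeff_C_mul, coeff_SY, coeff_SY,
      coeff_SY, mul_assoc]
    apply mul_le_mul_of_nonneg_left _ (by positivity)
    rw [← al_Wp]
    exact al_diff p i
  calc 3 * Wp p + ∑ x ∈ Finset.range (p + 1), coeff p (C (q ^ (x + 1)) *
        (-(Sg * Yg ^ x - C 2 * (Sg * Yg ^ (x + 1)) + Sg * Yg ^ (x + 2))))
      ≤ 3 * Wp p + ∑ i ∈ Finset.range (p + 1), q ^ (i + 1) * (2 * i + 3) * (3 * Wp p) := by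
        gcongr with i hi
        exact hterm i hi
    _ = 3 * Wp p * (1 + ∑ i ∈ Finset.range (p + 1), q ^ (i + 1) * (2 * i + 3)) := by
        rw [← Finset.sum_mul]; ring
    _ ≤ 3 * Wp p * ((1 + q) / (1 - q) ^ 2) :=
        mul_le_mul_of_nonneg_left (geo q q0 q1 (p + 1)) (by have := Wp_pos p; positivity)
    _ = 3 * Wp p * ((c + 1) * (c + 2) / 2) := by
        congr 1
        rw [hq]
        have : (1 : ℝ) - c / (c + 2) = 2 / (c + 2) := by field_simp; ring
        rw [this]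
        field_simp
        ring

/-- the main estimate for Dyck paths with shifted weights -/
theorem vg_bound (c : ℝ) (hc : 0 ≤ c) (p : ℕ) : vg c 0 p ≤ 3 / 4 * (c + 2) ^ 2 * Wp p := by
  have h := coeff_U c hc p
  have hW := Wp_pos p
  unfold vg
  push_cast
  rw [pow_zero, one_mul, add_zero]
  have e : (c + 1) * (c + 2) / ((c + 3) * (c + 1)) = (c + 2) / (c + 3) := by
    have h1 : c + 1 ≠ 0 := by linarith
    have h3 : c + 3 ≠ 0 := by linarith
    field_simp
  rw [e]
  calc (c + 2) / (c + 3) * coeff p (Ug c 0) ≤ (c + 2) / (c + 3) * (3 * Wp p * ((c + 1) * (c + 2) / 2) / 2) := by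
        apply mul_le_mul_of_nonneg_left _ (by positivity)
        linarith
    _ = 3 / 4 * (c + 2) ^ 2 * Wp p * ((c + 1) / (c + 3)) := by ring
    _ ≤ 3 / 4 * (c + 2) ^ 2 * Wp p * 1 := by
        apply mul_le_mul_of_nonneg_left _ (by positivity)
        rw [div_le_one (by linarith)]; linarith
    _ = _ := by ring

theorem vg_zero (p : ℕ) : vg 0 0 p = Wp p := by
  have h := congrArg (coeff p) (Ug_expand 0 le_rfl 0)
  rw [LinearMap.map_sub, LinearMap.map_add, LinearMap.map_sub, coeff_C_mul, coeff_C_mul, coeff_SY, coeff_SY,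
    ] at h
  simp only [Finset.range_zero, Finset.sum_empty, zero_mul, map_zero, mul_zero, add_zero, sub_zero] at h
  rw [al_Wp] at h
  unfold vg
  norm_num
  linarith

end

end QRC
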